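import Mathlib
import Pool.Agent.Helper305_Blum.D

set_option autoImplicit false

/-!
# A compact linearly ordered space without the Blumberg property, in ZFC

Let `S` be a stationary subset of `ω₁` with stationary complement. The space `X` is the set of all
`x ⊆ S` which contain each of their limit points that lies below some element of `x`, with the
lexicographic order (of the characteristic functions). Every subset of `X` has a least upper bound,
so `X` is compact in the order topology. As `S` contains no club, every `x` in `X` is bounded in
`ω₁`, so `X` has at most continuum many points. For a closed bounded `p ⊆ S` with largest element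
`m` let `N p` be the set of all `x` in `X` with `x ∩ [0, m] = p`. Each `N p` contains a nonempty open
set, and each nonempty open set contains some `N p`. As `S` is stationary, for countably many open
sets `O n` and for every `p` there is an end-extension `q` of `p` such that for all `n` either
`N q ⊆ O n` or `N q ∩ O n = ∅`. Hence if a function `f : X → ℝ` is continuous on a dense set `D`,
then `f` is constant on `D ∩ N q` for some `q`. This set has more than one point, so `f` is not
injective. But there is an injective function from `X` to `ℝ`.
-/

namespace Pool.Agent.Results.MP_184855_gt.CompactLots

/-- The Blumberg property: every real function on `X` is continuous on some dense subset (with the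
subspace topology). -/
def BlumbergProperty (X : Type) [TopologicalSpace X] : Prop :=
  ∀ f : X → ℝ, ∃ D : Set X, Dense D ∧ Continuous fun x : D => f x.1

/-- There is a compact linearly ordered topological space without the Blumberg property. -/
theorem result : ∃ (X : Type) (_ : LinearOrder X) (_ : TopologicalSpace X),
    OrderTopology X ∧ CompactSpace X ∧ ¬ BlumbergProperty X := by
  obtain ⟨X, i1, i2, h1, h2, h0, h3, h4, h5⟩ := Pool.Agent.Helper305.Blum.main
  refine ⟨X, i1, i2, h1, h2, fun hB => ?_⟩
  rw [← Cardinal.mk_real, Cardinal.le_def] at h3
  obtain ⟨f⟩ := h3
  obtain ⟨D, hD, hc⟩ := hB f
  obtain ⟨U, _, hU1, hU2, r, hr⟩ := h5 f D hD (continuousOn_iff_continuous_domRestrict.2 hc)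
    Set.univ isOpen_univ Set.univ_nonempty
  obtain ⟨x, hx, y, hy, hxy⟩ := h4 D U hD hU1 hU2
  exact hxy (f.injective ((hr x hx).trans (hr y hy).symm))

end Pool.Agent.Results.MP_184855_gt.CompactLots
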